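import Pool.Agent.TH733.RT.Main
import Pool.Agent.TH707.OB.Polylog

/-!
# Common translates of independent random oracles: `P` and `NP` against polylogarithmic space

`xor2 A B` is the symmetric difference of the oracles `A` and `B`, the translate of `A` by `B`.

* For every sequence `B 0, B 1, ...` of oracles there is one oracle `A` such that, relative to all
  the translates of `A` by the `B i`, every language in `PSPACE` is read off from the oracle by one
  question which consists of constants and of the input (`OneQuestion`).
* Let the `B i` be independent random oracles. Almost surely, for every set `I` of numbers there is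
  one oracle `A` such that for all `i` in `I` the same holds for the translate by `B i`, while for
  all `i` outside `I`, relative to the translate by `B i`, for every `b` some language in `P` is not
  in nondeterministic space `n ^ b`, not even with advice of length `2 ^ n / 8`, by algorithms that
  are built from arbitrary functions of any fixed countable set.
* So for every space-bounded class `C` (`SpaceClass`), in particular for polylogarithmic space: the
  set of the `i` for which `P` is contained in `C` relative to the translate by `B i` can be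
  prescribed arbitrarily, by a suitable choice of `A`, and `P` may be replaced by `NP` or `PSPACE`.

Proof. `A` codes, for all `i` in `I`, the computations relative to its translate by `B i`, masked by
`B i`. The values of `A` on the strings of length at most `n` depend on `I` only below `log n`, so
there are few possibilities for them; for a fixed `I` the translate of `A` by an independent random
oracle is a random oracle; and the set of the oracles with `P` in small space is null for all slowly
growing gauges (`TH707.OB`).
-/

set_option autoImplicit false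

namespace Pool.Agent.Results.MP_9dcf40_lc.IndependentTranslates

open Pool.Agent.NPC Pool.Agent.H620R2.Gauge Pool.Agent.TH707.OB Pool.Agent.TH733.RT
open MeasureTheory Filter

theorem result :
    (∀ B : ℕ → Oracle, ∃ A : Oracle, ∀ i L,
      IsPSPACE (xor2 A (B i)) L → OneQuestion (xor2 A (B i)) L) ∧
    (∀ G : Set (List Bool → List Bool), G.Countable → ∀ᵐ B ∂randomSeq, ∀ I : Set ℕ, ∃ A : Oracle,
      (∀ i ∈ I, ∀ L, IsPSPACE (xor2 A (B i)) L → OneQuestion (xor2 A (B i)) L) ∧
      ∀ i ∉ I, ∀ b : ℕ, ∃ L, IsP (xor2 A (B i)) L ∧
        ¬ InSpace G (fun n => n ^ b) (fun n => 2 ^ n / 8) (xor2 A (B i)) L) ∧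
    (∀ C, SpaceClass C → ∀ᵐ B ∂randomSeq, ∀ I : Set ℕ, ∃ A : Oracle,
      (∀ i ∈ I, ∀ L, IsPSPACE (xor2 A (B i)) L → C (xor2 A (B i)) L) ∧
      ∀ i ∉ I, ∃ L, IsP (xor2 A (B i)) L ∧ ¬ C (xor2 A (B i)) L) ∧
    SpaceClass PolylogSpace := by
  have h2 : ∀ G : Set (List Bool → List Bool), G.Countable → ∀ᵐ B ∂randomSeq, ∀ I : Set ℕ,
      ∃ A : Oracle,
      (∀ i ∈ I, ∀ L, IsPSPACE (xor2 A (B i)) L → OneQuestion (xor2 A (B i)) L) ∧
      ∀ i ∉ I, ∀ b : ℕ, ∃ L, IsP (xor2 A (B i)) L ∧
        ¬ InSpace G (fun n => n ^ b) (fun n => 2 ^ n / 8) (xor2 A (B i)) L := by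
    intro G hG
    obtain ⟨R, Φ, h1, h2⟩ := main_p (S := {A | FixedSpace G A})
      (null_fixedSpace hG fun ε hε => (slow_p hε).frequently)
    filter_upwards [h2] with B hB I
    refine ⟨Φ I B, fun i hi L hL => ?_, fun i hi b => ?_⟩
    · obtain ⟨e, he⟩ := h1 I B i hi L hL
      exact oneQuestion_of_code he
    · by_contra hc
      push Not at hc
      exact hB I i hi ⟨b, hc⟩
  refine ⟨fun B => ?_, h2, fun C hC => ?_, spaceClass_polylog⟩
  · obtain ⟨R, Φ, h1, -⟩ := main_p (S := ∅) (fun δ hδ => ⟨∅, by simp, by simp⟩)
    refine ⟨Φ Set.univ B, fun i L hL => ?_⟩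
    obtain ⟨e, he⟩ := h1 Set.univ B i (Set.mem_univ i) L hL
    exact oneQuestion_of_code he
  · obtain ⟨hC1, G, b, hG, h3⟩ := hC
    filter_upwards [h2 G hG] with B hB I
    obtain ⟨A, h4, h5⟩ := hB I
    refine ⟨A, fun i hi L hL => hC1 _ L (h4 i hi L hL), fun i hi => ?_⟩
    obtain ⟨L, h6, h7⟩ := h5 i hi b
    exact ⟨L, h6, fun h => h7 (h3 _ L h)⟩

end Pool.Agent.Results.MP_9dcf40_lc.IndependentTranslates
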