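import Pool.Agent.TH706.SK.Peb

/-!
# P against POLYLOGSPACE: pure dynamic programs with registers and a stack

The problem: an acyclic graph is given, with weights for the rules `(i, u, φ)`, where `i` is a node,
`u` a letter for `i` and `φ` a tuple of letters for the children of `i`; the minimum weight of a
derivation tree of `(r, u)` is asked for (`deriv` over the tropical semiring). This is a weighted
form of the evaluation of circuits, which is complete for P. The programs are straight-line programs
over `(min, +)` with `K` registers (pure dynamic programs) which, in addition, have a stack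
(pushdown store) of unlimited height: a step may also put the contents of a register on the stack,
or remove the top of the stack and put it into a register. Machines with logarithmic memory and such
a stack accept, without a bound for the time, exactly the languages in P (Cook).

* In the same way two registers and a stack are enough for every graph, with exponentially many
  steps.
* But with `L` steps the number of black pebbles which the graph needs is at most
  `144 K (log₂ L + 2) ^ 2 + 1`. So over a family of graphs of bounded degree polylogarithmically many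
  registers, a stack and quasi-polynomially many steps suffice if and only if polylogarithmically
  many pebbles suffice, that is (helper679, `PebblingRegisters`) if and only if this is possible
  without the stack.
* For the pyramid of height `h` with a stack and `K` registers at least `2 ^ (√(h / (144 K)) - 2)`
  steps are necessary, and with two registers `(16 k ^ 2 + 1) ^ (h + 1)` steps are enough.

The same holds for the sum of the products of the weights over the nonnegative real numbers.
-/

set_option autoImplicit false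

namespace Pool.Agent.Results.MP_9dcf40_lc.PebblesWithStack

open Pool.Agent.TH706.SK
open Pool.Agent.TH679.PD
open Pool.Agent.W994.DE (Dag pyramid pyrTop pyramid_pebbles pyramid_deg_le)
open scoped NNReal

/-- Polylogarithmically many pebbles are enough for the nodes `r n` of the graphs `G n`. -/
def FewPebbles {ι : Type} (G : ι → Dag) (r : ∀ n, (G n).V) : Prop :=
  ∃ c : ℕ, ∀ n, (G n).Pebblable (lg (G n) ^ c) (r n)

/-- There are programs over `(min, +)` with polylogarithmically many registers, a stack and
quasi-polynomially many steps for the cheapest derivations of `(r n, u)`. -/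
def StackProgramsMin {ι : Type} (G : ι → Dag) (r : ∀ n, (G n).V) (k : ℕ) (u : Fin k) : Prop :=
  ∃ c : ℕ, ∀ n, ∃ (ρ : Type) (_ : Fintype ρ) (_ : DecidableEq ρ)
    (p : List (SInstr (Tropical (WithTop ℝ)) (Rule (G n) k) ρ)) (o : ρ),
    Fintype.card ρ ≤ lg (G n) ^ c ∧ p.length ≤ 2 ^ lg (G n) ^ c ∧ StackSolvesMin (r n) u p o

/-- The same for the sum of the products of the weights, over the nonnegative real numbers. -/
def StackProgramsSum {ι : Type} (G : ι → Dag) (r : ∀ n, (G n).V) (k : ℕ) (u : Fin k) : Prop :=
  ∃ c : ℕ, ∀ n, ∃ (ρ : Type) (_ : Fintype ρ) (_ : DecidableEq ρ)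
    (p : List (SInstr ℝ≥0 (Rule (G n) k) ρ)) (o : ρ),
    Fintype.card ρ ≤ lg (G n) ^ c ∧ p.length ≤ 2 ^ lg (G n) ^ c ∧ StackSolvesSum (r n) u p o

/-- (1) Lower bounds: if a program with the registers `ρ` and a stack computes the minimum weight of
a derivation tree of `(r, u)` for all weights in the natural numbers (or the sum of the products for
all nonnegative real weights), over `k ≥ 2` letters, then
`144 registers (⌊log₂ steps⌋ + 2) ^ 2 + 1` pebbles are enough for `r`.

(2) For a family of graphs of bounded degree and `k ≥ 2` letters there are programs with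
polylogarithmically many registers, a stack and quasi-polynomially many steps if and only if
polylogarithmically many pebbles are enough.

(3) For every graph with degrees at most `D` and height (rank) of `r` at most `h` two registers and
a stack are enough, over each commutative semiring, with `(k ^ D (4 D + 8) + 1) ^ (h + 1)` steps.

(4) For the pyramid of height `h` always `h ≤ 144 registers (⌊log₂ steps⌋ + 2) ^ 2`, but two
registers and `(16 k ^ 2 + 1) ^ (h + 1)` steps are enough. -/
theorem result :
    (∀ (G : Dag) (r : G.V) (k : ℕ) (ρ : Type) [Fintype ρ] [DecidableEq ρ] (u : Fin k) (o : ρ),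
      2 ≤ k →
      (∀ p, StackSolvesMin r u p o →
        G.Pebblable (144 * Fintype.card ρ * (Nat.log 2 p.length + 2) ^ 2 + 1) r) ∧
      (∀ p, StackSolvesSum r u p o →
        G.Pebblable (144 * Fintype.card ρ * (Nat.log 2 p.length + 2) ^ 2 + 1) r)) ∧
    (∀ (ι : Type) (G : ι → Dag) (r : ∀ n, (G n).V) (D k : ℕ) (u : Fin k),
      (∀ n i, (G n).deg i ≤ D) → 2 ≤ k →
      (FewPebbles G r ↔ StackProgramsMin G r k u) ∧
      (FewPebbles G r ↔ StackProgramsSum G r k u)) ∧
    (∀ (G : Dag) (r : G.V) (k D h : ℕ), 1 ≤ k → (∀ i, G.deg i ≤ D) → G.rank r ≤ h →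
      ∀ (R : Type) [CommSemiring R] (u : Fin k), ∃ (p : List (SInstr R (Rule G k) Bool)),
        p.length ≤ (k ^ D * (4 * D + 8) + 1) ^ (h + 1) ∧
        ∀ w, sexec w p true = deriv w r u) ∧
    (∀ (h k : ℕ) (u : Fin k), 2 ≤ k →
      (∀ (ρ : Type) [Fintype ρ] [DecidableEq ρ] (o : ρ),
        (∀ p, StackSolvesMin (G := pyramid h) (pyrTop h) u p o →
          h ≤ 144 * Fintype.card ρ * (Nat.log 2 p.length + 2) ^ 2) ∧
        (∀ p, StackSolvesSum (G := pyramid h) (pyrTop h) u p o →
          h ≤ 144 * Fintype.card ρ * (Nat.log 2 p.length + 2) ^ 2)) ∧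
      ∀ (R : Type) [CommSemiring R], ∃ (p : List (SInstr R (Rule (pyramid h) k) Bool)),
        p.length ≤ (16 * k ^ 2 + 1) ^ (h + 1) ∧
        ∀ w, sexec w p true = deriv w (pyrTop h) u) := by
  have h3 : ∀ (G : Dag) (r : G.V) (k D h : ℕ), 1 ≤ k → (∀ i, G.deg i ≤ D) → G.rank r ≤ h →
      ∀ (R : Type) [CommSemiring R] (u : Fin k), ∃ (p : List (SInstr R (Rule G k) Bool)),
        p.length ≤ (k ^ D * (4 * D + 8) + 1) ^ (h + 1) ∧
        ∀ w, sexec w p true = deriv w r u := by
    intro G r k D h hk hD hr R _ u
    obtain ⟨p, h1, h2⟩ := stack_deriv (R := R) hk hD h r u hr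
    exact ⟨p, h1, fun w => (h2 w _ _).1⟩
  refine ⟨?_, ?_, h3, ?_⟩
  · intro G r k ρ _ _ u o hk
    exact ⟨fun p hp => stack_min hk hp, fun p hp => stack_sum hk hp⟩
  · intro ι G r D k u hD hk
    have hup : ∀ (R : Type) [CommSemiring R], FewPebbles G r → ∃ c : ℕ, ∀ n,
        ∃ (ρ : Type) (_ : Fintype ρ) (_ : DecidableEq ρ)
          (p : List (SInstr R (Rule (G n) k) ρ)) (o : ρ),
          Fintype.card ρ ≤ lg (G n) ^ c ∧ p.length ≤ 2 ^ lg (G n) ^ c ∧
          ∀ w, sexec w p o = deriv w (r n) u := by
      rintro R _ ⟨c, hc⟩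
      obtain ⟨M, hM⟩ : ∃ M, M = k * (k ^ D * (D + 2) + 1) := ⟨_, rfl⟩
      refine ⟨c + (k + 1) + (M + 2), fun n => ?_⟩
      obtain ⟨ρ, i1, i2, p, o, h1, h2, h3⟩ :=
        polylog_upper R (by omega : 1 ≤ k) (hD n) (hc n)
      have hl := two_le_lg (r n)
      refine ⟨ρ, i1, i2, p.map .op, o u, ?_, ?_, fun w => by rw [sexec_op]; exact h3 w u⟩
      · exact h1.trans (Nat.pow_le_pow_right (by omega) (by omega))
      · rw [List.length_map]
        refine h2.trans (Nat.pow_le_pow_right (by norm_num) ?_)
        exact Nat.pow_le_pow_right (by omega) (by omega)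
    refine ⟨⟨?_, ?_⟩, ⟨?_, ?_⟩⟩
    · intro h
      obtain ⟨c, hc⟩ := hup (Tropical (WithTop ℝ)) h
      refine ⟨c, fun n => ?_⟩
      obtain ⟨ρ, i1, i2, p, o, h1, h2, h3⟩ := hc n
      exact ⟨ρ, i1, i2, p, o, h1, h2, fun w => h3 _⟩
    · rintro ⟨c, hc⟩
      refine ⟨3 * c + 11, fun n => ?_⟩
      obtain ⟨ρ, i1, i2, p, o, h1, h2, h3⟩ := hc n
      exact pebblable_mono (stack_polylog (two_le_lg (r n)) h1 h2) (stack_min hk h3)
    · intro h
      obtain ⟨c, hc⟩ := hup ℝ≥0 h
      refine ⟨c, fun n => ?_⟩
      obtain ⟨ρ, i1, i2, p, o, h1, h2, h3⟩ := hc n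
      exact ⟨ρ, i1, i2, p, o, h1, h2, h3⟩
    · rintro ⟨c, hc⟩
      refine ⟨3 * c + 11, fun n => ?_⟩
      obtain ⟨ρ, i1, i2, p, o, h1, h2, h3⟩ := hc n
      exact pebblable_mono (stack_polylog (two_le_lg (r n)) h1 h2) (stack_sum hk h3)
  · intro h k u hk
    refine ⟨fun ρ _ _ o => ⟨fun p hp => ?_, fun p hp => ?_⟩, fun R _ => ?_⟩
    · have h1 := pyramid_pebbles (stack_min hk hp)
      omega
    · have h1 := pyramid_pebbles (stack_sum hk hp)
      omega
    · obtain ⟨p, h1, h2⟩ := h3 (pyramid h) (pyrTop h) k 2 h (by omega) (pyramid_deg_le h)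
        (le_refl h) R u
      refine ⟨p, h1.trans (Nat.pow_le_pow_left ?_ _), h2⟩
      have : k ^ 2 * (4 * 2 + 8) + 1 = 16 * k ^ 2 + 1 := by ring
      exact this.le

end Pool.Agent.Results.MP_9dcf40_lc.PebblesWithStack
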