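import Pool.Agent.TH679.PD.PebAsym

/-!
# P against POLYLOGSPACE for pure dynamic programs: registers and pebbles

The problem: an acyclic graph is given, with weights for the rules `(i, u, φ)`, where `i` is a node,
`u` a letter for `i` and `φ` a tuple of letters for the children of `i`; the minimum weight of a
derivation tree of `(r, u)` is asked for (`deriv` over the tropical semiring). This is a weighted
form of the evaluation of circuits (AND/OR graphs, path systems), which is complete for P.
A program computes step by step with a few registers, which hold real numbers or infinity, using the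
operations `min` and `+` (a pure dynamic program; a step also can load a weight or a constant). The
program may depend on the graph in any way, and need not compute the values of the nodes at all.

We show for every graph: the number of registers that are needed is, up to a factor `O(log L)`, `L`
being the number of steps, the number of pebbles in the black pebble game. So over a
family of graphs of bounded degree there are pure dynamic programs with polylogarithmically many
registers and quasi-polynomially many steps if and only if polylogarithmically many pebbles are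
enough; this is not so for pyramids. The same holds for the sum of the products of the weights and
programs over the nonnegative real numbers with `+` and `*`.
-/

set_option autoImplicit false

namespace Pool.Agent.Results.MP_9dcf40_lc.PebblingRegisters

open Pool.Agent.TH679.PD
open Pool.Agent.H564R3.PW (Instr exec)
open Pool.Agent.W994.DE (Dag pyramid pyrTop pyramid_pebbles)
open scoped NNReal

/-- Polylogarithmically many pebbles are enough for the nodes `r n` of the graphs `G n`. -/
def FewPebbles {ι : Type} (G : ι → Dag) (r : ∀ n, (G n).V) : Prop :=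
  ∃ c : ℕ, ∀ n, (G n).Pebblable (lg (G n) ^ c) (r n)

/-- There are pure dynamic programs over `(min, +)` with polylogarithmically many registers and
quasi-polynomially many steps for the cheapest derivations of `(r n, u)`. -/
def FewRegistersMin {ι : Type} (G : ι → Dag) (r : ∀ n, (G n).V) (k : ℕ) (u : Fin k) : Prop :=
  ∃ c : ℕ, ∀ n, ∃ (ρ : Type) (_ : Fintype ρ) (_ : DecidableEq ρ)
    (p : List (Instr (Tropical (WithTop ℝ)) (Rule (G n) k) ρ)) (o : ρ),
    Fintype.card ρ ≤ lg (G n) ^ c ∧ p.length ≤ 2 ^ lg (G n) ^ c ∧ SolvesMin (r n) u p o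

/-- The same for the sum of the products of the weights, over the nonnegative real numbers. -/
def FewRegistersSum {ι : Type} (G : ι → Dag) (r : ∀ n, (G n).V) (k : ℕ) (u : Fin k) : Prop :=
  ∃ c : ℕ, ∀ n, ∃ (ρ : Type) (_ : Fintype ρ) (_ : DecidableEq ρ)
    (p : List (Instr ℝ≥0 (Rule (G n) k) ρ)) (o : ρ),
    Fintype.card ρ ≤ lg (G n) ^ c ∧ p.length ≤ 2 ^ lg (G n) ^ c ∧ SolvesSum (r n) u p o

/-- (1) Lower bounds, for every graph `G`, node `r`, alphabet `Fin k` and `q`: if a program with
the registers `ρ` computes the minimum weight of a derivation tree of `(r, u)` for all weights in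
the natural numbers (or the sum of the products for all nonnegative real weights), then
`k ^ (q + 1) ≤ (steps + 1) * 2 ^ registers` or `4 q ⌈log₂ steps⌉ + 1` pebbles are enough for `r`.

(2) Upper bounds: a pebbling of `r` with `s` pebbles and `t` placements gives, over each
commutative semiring, a program with `s k + 1` registers and at most `t k (k ^ D (D + 2) + 1)`
steps, `D` being the maximum degree; and `s` pebbles are enough only if less than `(N + 1) ^ s`
placements with `s` pebbles are enough, `N` being the number of the nodes.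

(3) For a family of graphs of bounded degree and `k ≥ 2` letters there are programs with
polylogarithmically many registers and quasi-polynomially many steps if and only if
polylogarithmically many pebbles are enough.

(4) For the pyramid of height `h` and `k ≥ 2` letters always
`h ≤ 4 (registers + ⌈log₂ (steps + 1)⌉) ⌈log₂ steps⌉`; so (3) is false for the pyramids. -/
theorem result :
    (∀ (G : Dag) (r : G.V) (k q : ℕ) (ρ : Type) [Fintype ρ] [DecidableEq ρ] (u : Fin k) (o : ρ),
      (∀ p, SolvesMin r u p o → k ^ (q + 1) ≤ (p.length + 1) * 2 ^ Fintype.card ρ ∨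
        G.Pebblable (4 * q * Nat.clog 2 p.length + 1) r) ∧
      (∀ p, SolvesSum r u p o → k ^ (q + 1) ≤ (p.length + 1) * 2 ^ Fintype.card ρ ∨
        G.Pebblable (4 * q * Nat.clog 2 p.length + 1) r)) ∧
    (∀ (G : Dag) (r : G.V) (k D s : ℕ), 1 ≤ k → (∀ i, G.deg i ≤ D) →
      (∀ (R : Type) [CommSemiring R] (t : ℕ) (A : Finset G.V), Peb G s t A → r ∈ A →
        ∃ (ρ : Type) (_ : Fintype ρ) (_ : DecidableEq ρ) (p : List (Instr R (Rule G k) ρ))
          (o : Fin k → ρ), Fintype.card ρ = s * k + 1 ∧
          p.length ≤ t * (k * (k ^ D * (D + 2) + 1)) ∧ ∀ w u, exec w p (o u) = deriv w r u) ∧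
      (G.Pebblable s r → ∃ t A, r ∈ A ∧ Peb G s t A ∧ t < (Fintype.card G.V + 1) ^ s)) ∧
    (∀ (ι : Type) (G : ι → Dag) (r : ∀ n, (G n).V) (D k : ℕ) (u : Fin k),
      (∀ n i, (G n).deg i ≤ D) → 2 ≤ k →
      (FewPebbles G r ↔ FewRegistersMin G r k u) ∧ (FewPebbles G r ↔ FewRegistersSum G r k u)) ∧
    (∀ (h k : ℕ) (ρ : Type) [Fintype ρ] [DecidableEq ρ] (u : Fin k) (o : ρ), 2 ≤ k →
      (∀ p, SolvesMin (G := pyramid h) (pyrTop h) u p o →
        h ≤ 4 * (Fintype.card ρ + Nat.clog 2 (p.length + 1)) * Nat.clog 2 p.length) ∧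
      (∀ p, SolvesSum (G := pyramid h) (pyrTop h) u p o →
        h ≤ 4 * (Fintype.card ρ + Nat.clog 2 (p.length + 1)) * Nat.clog 2 p.length)) := by
  refine ⟨?_, ?_, ?_, ?_⟩
  · intro G r k q ρ _ _ u o
    refine ⟨fun p hp => ?_, fun p hp => ?_⟩
    · rcases Nat.lt_or_ge ((p.length + 1) * 2 ^ Fintype.card ρ) (k ^ (q + 1)) with h | h
      · exact Or.inr (peb_lower (good_min hp) h)
      · exact Or.inl h
    · rcases Nat.lt_or_ge ((p.length + 1) * 2 ^ Fintype.card ρ) (k ^ (q + 1)) with h | h
      · exact Or.inr (peb_lower (good_sum hp) h)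
      · exact Or.inl h
  · intro G r k D s hk hD
    refine ⟨?_, fun h => exists_peb_few h⟩
    intro R _ t A hA hr
    obtain ⟨p, o, h1, h2⟩ := peb_prog (R := R) hk hD hA hr
    exact ⟨PReg s k, inferInstance, inferInstance, p, o, card_PReg s k, h1, h2⟩
  · intro ι G r D k u hD hk
    set M := k * (k ^ D * (D + 2) + 1) with hM
    have hup : ∀ (R : Type) [CommSemiring R], FewPebbles G r → ∃ c : ℕ, ∀ n,
        ∃ (ρ : Type) (_ : Fintype ρ) (_ : DecidableEq ρ)
          (p : List (Instr R (Rule (G n) k) ρ)) (o : ρ),
          Fintype.card ρ ≤ lg (G n) ^ c ∧ p.length ≤ 2 ^ lg (G n) ^ c ∧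
          ∀ w, exec w p o = deriv w (r n) u := by
      rintro R _ ⟨c, hc⟩
      refine ⟨c + (k + 1) + (M + 2), fun n => ?_⟩
      obtain ⟨ρ, i1, i2, p, o, h1, h2, h3⟩ :=
        polylog_upper R (by omega : 1 ≤ k) (hD n) (hc n)
      have hl := two_le_lg (r n)
      refine ⟨ρ, i1, i2, p, o u, ?_, ?_, fun w => h3 w u⟩
      · exact h1.trans (Nat.pow_le_pow_right (by omega) (by omega))
      · refine h2.trans (Nat.pow_le_pow_right (by norm_num) ?_)
        exact Nat.pow_le_pow_right (by omega) (by omega)
    refine ⟨⟨?_, ?_⟩, ⟨?_, ?_⟩⟩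
    · intro h
      obtain ⟨c, hc⟩ := hup (Tropical (WithTop ℝ)) h
      refine ⟨c, fun n => ?_⟩
      obtain ⟨ρ, i1, i2, p, o, h1, h2, h3⟩ := hc n
      exact ⟨ρ, i1, i2, p, o, h1, h2, fun w => h3 _⟩
    · rintro ⟨c, hc⟩
      refine ⟨2 * c + 4, fun n => ?_⟩
      obtain ⟨ρ, i1, i2, p, o, h1, h2, h3⟩ := hc n
      exact polylog_lower (good_min h3) hk h1 h2
    · intro h
      obtain ⟨c, hc⟩ := hup ℝ≥0 h
      refine ⟨c, fun n => ?_⟩
      obtain ⟨ρ, i1, i2, p, o, h1, h2, h3⟩ := hc n
      exact ⟨ρ, i1, i2, p, o, h1, h2, h3⟩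
    · rintro ⟨c, hc⟩
      refine ⟨2 * c + 4, fun n => ?_⟩
      obtain ⟨ρ, i1, i2, p, o, h1, h2, h3⟩ := hc n
      exact polylog_lower (good_sum h3) hk h1 h2
  · intro h k ρ _ _ u o hk
    refine ⟨fun p hp => ?_, fun p hp => ?_⟩
    · have h1 := pyramid_pebbles (peb_lower_log (good_min hp) hk)
      omega
    · have h1 := pyramid_pebbles (peb_lower_log (good_sum hp) hk)
      omega

end Pool.Agent.Results.MP_9dcf40_lc.PebblingRegisters
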