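import Pool.Agent.TH708.Shr.Gen

/-!
# Path systems need large depth or AND gates that share many inputs

By Borodin, circuits of fan-in two and polylogarithmic depth (of any size) are the non-uniform form
of polylogarithmic space. So P is contained in POLYLOGSPACE if and only if the path systems, which
are complete for P, have (uniform) circuits of polylogarithmic depth. A path system has here
`2 k + 1` elements: `k` of them may be axioms (this is said by `k` input bits), one more is always an
axiom, and the rules `(a, b, c)` derive `c` from `a` and `b`; the question is whether a fixed element
is derivable. The circuits have AND and OR gates of fan-in two, negations at the leaves, and the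
leaves are the `k` axiom bits and, free of charge, ARBITRARY predicates of the set of rules. An AND
gate shares an axiom bit if both of its inputs depend on it (there are paths from both inputs to
literals of this bit).

Theorem: if each AND gate shares at most `μ` of the axiom bits then the depth `D` satisfies
`k ≤ 2 ^ 26 (μ + 1) (D + 2)`. So circuits of polylogarithmic depth for this function in P would need
AND gates that share at least `k / polylog k` of the `k` axiom bits, and for circuits which share at
most `k ^ (1 - ε)` bits at each AND gate polynomial depth `Ω (k ^ ε)` is necessary. The bound also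
holds for the size: `s` nodes and at most `m` shared bits on each path give
`k ≤ 2 ^ 26 (m + log s + 1)`, with any fan-in and any depth.

Proof: the general bound for functions which contain all conjunctions of disjunctions of disjoint
pairs of tracked bits (rectangles along one path of a proof tree and a random pairing), see
`Pool.Agent.TH708.Shr.Main`; a fan-in two circuit of depth `D` without superfluous nodes has less than
`2 ^ (D + 1)` nodes.
-/

set_option autoImplicit false

namespace Pool.Agent.Results.MP_9dcf40_lc.SharedAxioms

open Pool.Agent.TH708.Shr Pool.Agent.TH708.Shr.Gen

/-- Let `C` be a circuit whose nodes are literals of `k` bits `y`, arbitrary predicates of sets of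
rules on the elements `Fin k ⊕ Fin (k + 1)`, and AND and OR gates, such that for each set `R` of rules
and all `y` the node `o` is true if and only if the last element is derivable from the axioms
`inr 0` and `inl i` with `y i` true. If at most `m` of the bits are shared by AND gates on each path
from `o` then `k ≤ 2 ^ 26 (m + log s + 1)`, for the number `s` of nodes. If the gates have fan-in at
most two, all nodes are reached from `o`, the depth is `dep o`, and each AND gate shares at most `μ`
of the bits, then `k ≤ 2 ^ 26 (μ + 1) (dep o + 2)`. -/
theorem result {k s : ℕ}
    (C : Net (Set ((Fin k ⊕ Fin (k + 1)) × (Fin k ⊕ Fin (k + 1)) × (Fin k ⊕ Fin (k + 1)))) k s)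
    (o : Fin s)
    (hdec : ∀ R (y : Fin k → Bool), (Val C R y o ↔ Der R (axioms y) (Sum.inr (Fin.last k)))) :
    (∀ m, SharesLe C o m → k ≤ 2 ^ 26 * (m + Nat.log 2 s + 1)) ∧
    ∀ (dep : Fin s → ℕ) (μ : ℕ),
      (∀ g l, C g = Kind.and l → l.card ≤ 2 ∧ ∀ c ∈ l, dep c < dep g) →
      (∀ g l, C g = Kind.or l → l.card ≤ 2 ∧ ∀ c ∈ l, dep c < dep g) →
      (∀ g, ∃ M, Walk C o g M) →
      (∀ g, (shared C g).ncard ≤ μ) → k ≤ 2 ^ 26 * ((μ + 1) * (dep o + 2)) :=
  ⟨fun m hm => Gen.lower C o hdec m hm,
    fun dep μ h1 h2 h3 h4 => Gen.depth_lower C o hdec dep μ h1 h2 h3 h4⟩

end Pool.Agent.Results.MP_9dcf40_lc.SharedAxioms
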